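import Pool.Agent.T9h7.RD.Defs

/-!
# Project RD, piece CNT: the number of small configurations
-/

set_option autoImplicit false

open Finset

namespace Pool.Agent.T9h69.RD

open Pool.Agent.T9h7.RD

/-- the configuration given by a code -/
def decode (n s : ℕ) (g : Fin s → Option ((Fin n × Bool) × Fin s)) :
    Finset (Finset (Fin n × Bool)) :=
  ((univ : Finset (Fin s)).image fun j => univ.filter fun l => ∃ i, g i = some (l, j)).erase ∅

theorem exists_code {n s : ℕ} (M : Finset (Finset (Fin n × Bool)))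
    (h0 : (∅ : Finset (Fin n × Bool)) ∉ M) (hs : ∑ C ∈ M, C.card ≤ s) :
    ∃ g, decode n s g = M := by
  classical
  have hne : ∀ C ∈ M, 1 ≤ C.card := by
    intro C hC
    rw [Nat.one_le_iff_ne_zero]
    intro h
    rw [Finset.card_eq_zero] at h
    exact h0 (h ▸ hC)
  have hcard : M.card ≤ s := by
    calc M.card = ∑ C ∈ M, 1 := by simp
      _ ≤ ∑ C ∈ M, C.card := Finset.sum_le_sum hne
      _ ≤ s := hs
  obtain ⟨e⟩ : Nonempty ({C // C ∈ M} ↪ Fin s) := by
    apply Function.Embedding.nonempty_of_card_le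
    rw [Fintype.card_coe, Fintype.card_fin]
    exact hcard
  set P : Finset ((Fin n × Bool) × Fin s) :=
    M.attach.biUnion fun C => C.1.image fun l => (l, e C) with hP
  have hPc : P.card ≤ s := by
    calc P.card ≤ ∑ C ∈ M.attach, (C.1.image fun l => (l, e C)).card := Finset.card_biUnion_le
      _ ≤ ∑ C ∈ M.attach, C.1.card := Finset.sum_le_sum fun C _ => Finset.card_image_le
      _ = ∑ C ∈ M, C.card := Finset.sum_attach M fun C => C.card
      _ ≤ s := hs
  have hmem : ∀ l j, (l, j) ∈ P ↔ ∃ C : {C // C ∈ M}, l ∈ C.1 ∧ e C = j := by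
    intro l j
    simp only [hP, Finset.mem_biUnion, Finset.mem_attach, true_and, Finset.mem_image,
      Prod.mk.injEq]
    constructor
    · rintro ⟨C, l', hl', rfl, rfl⟩
      exact ⟨C, hl', rfl⟩
    · rintro ⟨C, hl, rfl⟩
      exact ⟨C, l, hl, rfl, rfl⟩
  set g : Fin s → Option ((Fin n × Bool) × Fin s) := fun i =>
    if h : i.1 < P.card then some (P.equivFin.symm ⟨i.1, h⟩).1 else none with hg
  have hgP : ∀ p, (∃ i, g i = some p) ↔ p ∈ P := by
    intro p
    constructor
    · rintro ⟨i, hi⟩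
      simp only [hg] at hi
      split_ifs at hi with h
      rw [Option.some.injEq] at hi
      rw [← hi]
      exact (P.equivFin.symm ⟨i.1, h⟩).2
    · intro hp
      refine ⟨⟨(P.equivFin ⟨p, hp⟩).1, lt_of_lt_of_le (P.equivFin ⟨p, hp⟩).2 hPc⟩, ?_⟩
      simp only [hg]
      rw [dif_pos (P.equivFin ⟨p, hp⟩).2]
      simp
  refine ⟨g, ?_⟩
  have hfil : ∀ C : {C // C ∈ M},
      ((univ : Finset (Fin n × Bool)).filter fun l => ∃ i, g i = some (l, e C)) = C.1 := by
    intro C
    ext l
    rw [Finset.mem_filter, hgP, hmem]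
    constructor
    · rintro ⟨-, D, hD, hDC⟩
      rw [e.injective hDC] at hD
      exact hD
    · intro hl
      exact ⟨Finset.mem_univ _, C, hl, rfl⟩
  ext C
  rw [decode, Finset.mem_erase, Finset.mem_image]
  constructor
  · rintro ⟨hC, j, -, hj⟩
    obtain ⟨l, hl⟩ := Finset.nonempty_iff_ne_empty.mpr hC
    rw [← hj, Finset.mem_filter, hgP, hmem] at hl
    obtain ⟨-, D, -, hD⟩ := hl
    rw [← hD, hfil D] at hj
    rw [← hj]
    exact D.2
  · intro hC
    exact ⟨fun h => h0 (h ▸ hC), e ⟨C, hC⟩, Finset.mem_univ _, hfil ⟨C, hC⟩⟩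

theorem sCnt : SCnt := by
  classical
  intro n s T M hinj h0 hs
  choose! c hc using fun (i : ℕ) (hi : i < T) => exists_code (M i) (h0 i hi) (hs i hi)
  have hi : Function.Injective fun i : Fin T => c i.1 := by
    intro i j hij
    have h1 : M i.1 = M j.1 := by
      rw [← hc i.1 i.2, ← hc j.1 j.2]
      exact congrArg (decode n s) hij
    exact Fin.ext (hinj i.1 i.2 j.1 j.2 h1)
  have h2 := Fintype.card_le_of_injective _ hi
  have h3 : Fintype.card (Fin s → Option ((Fin n × Bool) × Fin s)) = (2 * n * s + 1) ^ s := by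
    simp only [Fintype.card_fun, Fintype.card_option, Fintype.card_prod, Fintype.card_fin,
      Fintype.card_bool]
    rw [mul_comm n 2]
  rw [h3, Fintype.card_fin] at h2
  exact h2

end Pool.Agent.T9h69.RD
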