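import Pool.Agent.T9h7.RD.Spec2

/-!
# Project RD, piece NUM: the parameters
-/

set_option autoImplicit false

namespace Pool.Agent.T9h69.RD

theorem log_bd {a : ℕ} {x : ℝ} (h : (2 : ℝ) ^ a ≤ x) : (a : ℝ) ≤ 3 / 2 * Real.log x := by
  have h1 : (a : ℝ) * Real.log 2 ≤ Real.log x := by
    rw [← Real.log_pow]
    exact Real.log_le_log (by positivity) h
  have h2 := Real.log_two_gt_d9
  have h3 : (0 : ℝ) ≤ a := Nat.cast_nonneg a
  nlinarith

theorem sNum' : ∃ K : ℕ, ∀ n s w T : ℕ, 1 ≤ w → w ≤ s → s ≤ n → T ≤ (2 * n * s + 1) ^ s →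
  ∃ E h k X Y : ℕ, 1 ≤ E ∧ 1 ≤ h ∧ E ≤ 2 ^ k ∧ 4 * (s : ℝ) * (1 / (E : ℝ)) ≤ (h : ℝ) ∧
    (∀ a i b : ℕ, 2 ^ a ≤ T →
      (h : ℝ) * i ≤ 3 * (s : ℝ) * ((w : ℝ) * Real.log (2 * (n : ℝ) + 2) + 2) →
      (1 / (E : ℝ)) * b ≤ (1 / (E : ℝ)) * i + ((w : ℝ) * Real.log (2 * (n : ℝ) + 2) + 2) →
      a + i ≤ X ∧ b ≤ Y) ∧
    ((((X / E + Y + 2) * (2 * h * E + s * (k + 1)) : ℕ) : ℝ)) ^ 2
      ≤ (K : ℝ) * (s : ℝ) ^ 3 * (w : ℝ) * (Real.log ((n : ℝ) + 2)) ^ 4 := by
  refine ⟨186624, fun n s w T hw hws hsn hT => ?_⟩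
  have hwR : (1 : ℝ) ≤ w := by exact_mod_cast hw
  have hwsR : (w : ℝ) ≤ s := by exact_mod_cast hws
  have hsnR : (s : ℝ) ≤ n := by exact_mod_cast hsn
  have hsR : (1 : ℝ) ≤ s := hwR.trans hwsR
  have hnR : (1 : ℝ) ≤ n := hsR.trans hsnR
  set Λ : ℝ := Real.log ((n : ℝ) + 2) with hΛd
  have hΛ : 1 ≤ Λ := by
    rw [hΛd, Real.le_log_iff_exp_le (by linarith)]
    have := Real.exp_one_lt_d9
    linarith
  set ℓ : ℝ := Real.log (2 * (n : ℝ) + 2) with hℓd
  have hℓ0 : 0 ≤ ℓ := Real.log_nonneg (by linarith)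
  have hℓ : ℓ ≤ 2 * Λ := by
    have h1 : ℓ ≤ Real.log (((n : ℝ) + 2) ^ 2) := by
      apply Real.log_le_log (by linarith)
      have h0 : 0 ≤ (n : ℝ) * n := mul_nonneg (by linarith) (by linarith)
      have h01 : ((n : ℝ) + 2) ^ 2 = (n : ℝ) * n + 4 * n + 4 := by ring
      rw [h01]
      linarith
    have h2 : Real.log (((n : ℝ) + 2) ^ 2) = 2 * Λ := by
      rw [Real.log_pow, hΛd]
      push_cast
      ring
    rwa [h2] at h1
  set L : ℝ := (w : ℝ) * ℓ + 2 with hLd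
  have hL0 : 0 ≤ L := by positivity
  have hw0 : (0 : ℝ) < w := by linarith
  have hs0 : (0 : ℝ) < s := by linarith
  have hΛ0 : (0 : ℝ) < Λ := by linarith
  have hwΛ : 1 ≤ (w : ℝ) * Λ := one_le_mul_of_one_le_of_one_le hwR hΛ
  have hL : L ≤ 4 * (w * Λ) := by
    have h1 : (w : ℝ) * ℓ ≤ w * (2 * Λ) := mul_le_mul_of_nonneg_left hℓ (by linarith)
    rw [hLd]
    linarith
  -- the root
  set Q : ℝ := Real.sqrt ((s : ℝ) * w) with hQd
  have hQ2 : Q * Q = s * w := Real.mul_self_sqrt (by positivity)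
  have hQ0 : 0 ≤ Q := Real.sqrt_nonneg _
  have hwQ : (w : ℝ) ≤ Q := by
    by_contra hc
    push Not at hc
    have h1 : Q * Q < w * w := mul_self_lt_mul_self hQ0 hc
    have h2 : (w : ℝ) * w ≤ s * w := mul_le_mul_of_nonneg_right hwsR hw0.le
    linarith
  have hQs : Q ≤ s := by
    by_contra hc
    push Not at hc
    have h1 : (s : ℝ) * s < Q * Q := mul_self_lt_mul_self hs0.le hc
    have h2 : (s : ℝ) * w ≤ s * s := mul_le_mul_of_nonneg_left hwsR hs0.le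
    linarith
  have hQ1 : 1 ≤ Q := hwR.trans hwQ
  -- E
  set m : ℕ := s / w with hm
  set r : ℕ := Nat.sqrt m with hr
  have hr1 : r * r ≤ m := Nat.sqrt_le m
  have hr2 : m < (r + 1) * (r + 1) := Nat.lt_succ_sqrt m
  have hm1 : m * w ≤ s := Nat.div_mul_le_self s w
  have hm2 : s < (m + 1) * w := by
    have h1 := Nat.div_add_mod s w
    have h2 := Nat.mod_lt s (show 0 < w by omega)
    calc s = w * (s / w) + s % w := h1.symm
      _ < w * (s / w) + w := Nat.add_lt_add_left h2 _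
      _ = (m + 1) * w := by rw [hm]; ring
  obtain ⟨E, hE⟩ : ∃ E : ℕ, E = r + 1 := ⟨_, rfl⟩
  have hE1 : 1 ≤ E := by omega
  have hER : (1 : ℝ) ≤ E := by exact_mod_cast hE1
  have hE0 : (0 : ℝ) < E := by linarith
  have hEn : E ≤ n + 1 := by
    have h1 : r ≤ r * r := Nat.le_mul_self r
    have h2 : m ≤ s := Nat.div_le_self s w
    omega
  have hEr : (E : ℝ) = r + 1 := by rw [hE]; push_cast; ring
  have hQE : Q < E * w := by
    have h1 : s < E * E * w := by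
      have h2 : (m + 1) * w ≤ E * E * w := Nat.mul_le_mul_right w (by rw [hE]; omega)
      omega
    have h2 : (s : ℝ) < E * E * w := by exact_mod_cast h1
    by_contra hc
    push Not at hc
    have h3 : (s : ℝ) * w < (E * w) * (E * w) := by
      have h4 : (s : ℝ) * w < E * E * w * w := mul_lt_mul_of_pos_right h2 hw0
      linarith
    have h4 : (E * w : ℝ) * (E * w) ≤ Q * Q := mul_le_mul hc hc (by positivity) hQ0
    linarith
  have hEQ : E * w ≤ 2 * Q := by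
    have h1 : r * r * w ≤ s := (Nat.mul_le_mul_right w hr1).trans hm1
    have h2 : (r : ℝ) * r * w ≤ s := by exact_mod_cast h1
    have h3 : (r : ℝ) * w ≤ Q := by
      by_contra hc
      push Not at hc
      have h4 : Q * Q < (r * w) * (r * w) := mul_lt_mul'' hc hc hQ0 hQ0
      have h5 : (r : ℝ) * r * w * w ≤ s * w := mul_le_mul_of_nonneg_right h2 hw0.le
      linarith
    rw [hEr]
    linarith
  have hsE : (s : ℝ) ≤ E * Q := by
    by_contra hc
    push Not at hc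
    have h1 : (E * Q : ℝ) * w < s * w := mul_lt_mul_of_pos_right hc hw0
    have h2 : Q * Q ≤ (E * w) * Q := mul_le_mul_of_nonneg_right hQE.le hQ0
    linarith
  -- h
  obtain ⟨h, hh⟩ : ∃ h : ℕ, h = 4 * s / E + 1 := ⟨_, rfl⟩
  have hh1 : 4 * s < h * E := by
    have h1 := Nat.div_add_mod (4 * s) E
    have h2 := Nat.mod_lt (4 * s) (show 0 < E by omega)
    calc 4 * s = E * (4 * s / E) + 4 * s % E := h1.symm
      _ < E * (4 * s / E) + E := Nat.add_lt_add_left h2 _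
      _ = h * E := by rw [hh]; ring
  have hh2 : h * E ≤ 4 * s + E := by
    have h1 := Nat.div_mul_le_self (4 * s) E
    calc h * E = 4 * s / E * E + E := by rw [hh]; ring
      _ ≤ 4 * s + E := Nat.add_le_add_right h1 _
  have hh1R : 4 * (s : ℝ) < h * E := by exact_mod_cast hh1
  have hh2R : (h : ℝ) * E ≤ 4 * s + E := by exact_mod_cast hh2
  have hE2s : (E : ℝ) ≤ 2 * s := by
    have h1 : (E : ℝ) * 1 ≤ E * w := mul_le_mul_of_nonneg_left hwR hE0.le
    linarith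
  -- k
  obtain ⟨k, hk⟩ : ∃ k : ℕ, k = Nat.log 2 E + 1 := ⟨_, rfl⟩
  have hk1 : E ≤ 2 ^ k := by
    rw [hk]; exact (Nat.lt_pow_succ_log_self (by norm_num) E).le
  have hk2 : ((Nat.log 2 E : ℕ) : ℝ) ≤ 3 / 2 * Λ := by
    apply log_bd
    have h1 : 2 ^ Nat.log 2 E ≤ E := Nat.pow_log_le_self 2 (by omega)
    have h2 : 2 ^ Nat.log 2 E ≤ n + 2 := by omega
    exact_mod_cast h2
  -- T
  have hT2 : ((Nat.log 2 T : ℕ) : ℝ) ≤ 9 / 2 * (s * Λ) := by
    have h1 : (2 : ℝ) ^ Nat.log 2 T ≤ (((n : ℝ) + 2) ^ 3) ^ s := by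
      have h2 : 2 ^ Nat.log 2 T ≤ ((n + 2) ^ 3) ^ s := by
        have h3 : (2 * n * s + 1) ^ s ≤ ((n + 2) ^ 3) ^ s := by
          apply Nat.pow_le_pow_left
          have h4 : 2 * n * s ≤ 2 * n * n := Nat.mul_le_mul_left _ hsn
          have h5 : (n + 2) ^ 3 = n * n * n + 6 * (n * n) + 12 * n + 8 := by ring
          have h6 : 2 * n * n = 2 * (n * n) := by ring
          rw [h5]
          omega
        rcases Nat.eq_zero_or_pos T with hT0 | hT0
        · rw [hT0, Nat.log_zero_right, pow_zero]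
          exact Nat.one_le_pow _ _ (by positivity)
        · exact ((Nat.pow_log_le_self 2 (by omega)).trans hT).trans h3
      exact_mod_cast h2
    have h2 := log_bd h1
    rw [Real.log_pow, Real.log_pow] at h2
    push_cast at h2
    rw [← hΛd] at h2
    linarith
  obtain ⟨X, hX⟩ : ∃ X : ℕ, X = Nat.log 2 T + ⌊L * E⌋₊ := ⟨_, rfl⟩
  obtain ⟨Y, hY⟩ : ∃ Y : ℕ, Y = ⌊2 * L * E⌋₊ := ⟨_, rfl⟩
  have hLE0 : 0 ≤ L * E := by positivity
  have hXR : (X : ℝ) ≤ 9 / 2 * (s * Λ) + L * E := by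
    rw [hX]
    push_cast
    exact add_le_add hT2 (Nat.floor_le hLE0)
  have hYR : (Y : ℝ) ≤ 2 * L * E := by
    rw [hY]
    exact Nat.floor_le (by positivity)
  refine ⟨E, h, k, X, Y, hE1, by rw [hh]; exact Nat.succ_le_succ (Nat.zero_le _), hk1,
    ?_, ?_, ?_⟩
  · rw [mul_one_div, div_le_iff₀ hE0]
    exact hh1R.le
  · intro a i b ha hi hb
    have hiR : (i : ℝ) ≤ L * E := by
      have hi0 : (0 : ℝ) ≤ i := Nat.cast_nonneg i
      have h1 : 4 * (s : ℝ) * i ≤ h * E * i := mul_le_mul_of_nonneg_right hh1R.le hi0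
      have h2 : (h : ℝ) * i * E ≤ 3 * s * L * E := mul_le_mul_of_nonneg_right hi hE0.le
      have h3 : 4 * (s : ℝ) * i ≤ 3 * s * (L * E) := by linarith
      have h5 : 0 ≤ (s : ℝ) * (L * E) := mul_nonneg hs0.le hLE0
      have h4 : (s : ℝ) * i ≤ s * (L * E) := by linarith
      exact le_of_mul_le_mul_left h4 (by linarith)
    have hbR : (b : ℝ) ≤ 2 * L * E := by
      have h1 : E * ((1 / (E : ℝ)) * b) ≤ E * ((1 / (E : ℝ)) * i + L) :=
        mul_le_mul_of_nonneg_left hb hE0.le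
      have h2 : E * ((1 / (E : ℝ)) * b) = b := by field_simp
      have h3 : E * ((1 / (E : ℝ)) * i + L) = i + L * E := by field_simp
      rw [h2, h3] at h1
      linarith
    refine ⟨?_, ?_⟩
    · rw [hX]
      exact add_le_add (Nat.le_log_of_pow_le (by norm_num) ha) (Nat.le_floor hiR)
    · rw [hY]
      exact Nat.le_floor hbR
  · have hA : ((X / E + Y + 2 : ℕ) : ℝ) ≤ 27 * (Q * Λ) := by
      have h1 : ((X / E : ℕ) : ℝ) ≤ X / E := Nat.cast_div_le
      have h2 : (X : ℝ) / E ≤ 9 / 2 * (Q * Λ) + L := by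
        rw [div_le_iff₀ hE0]
        have h3 : (s : ℝ) * Λ ≤ E * Q * Λ := mul_le_mul_of_nonneg_right hsE hΛ0.le
        have h4 : (9 / 2 * (Q * Λ) + L) * E = 9 / 2 * (E * Q * Λ) + L * E := by ring
        rw [h4]
        linarith
      have h3 : L ≤ 4 * (Q * Λ) := hL.trans (by
        have := mul_le_mul_of_nonneg_right hwQ (show (0 : ℝ) ≤ Λ by linarith)
        linarith)
      have h4 : 2 * L * E ≤ 16 * (Q * Λ) := by
        have h5 : 2 * L * E ≤ 2 * (4 * (w * Λ)) * E :=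
          mul_le_mul_of_nonneg_right (mul_le_mul_of_nonneg_left hL (by norm_num)) hE0.le
        have h6 : E * w * Λ ≤ 2 * Q * Λ := mul_le_mul_of_nonneg_right hEQ hΛ0.le
        have h7 : 2 * (4 * (w * Λ)) * E = 8 * (E * w * Λ) := by ring
        rw [h7] at h5
        linarith
      have h5 : 1 ≤ Q * Λ := one_le_mul_of_one_le_of_one_le hQ1 hΛ
      push_cast
      linarith
    have hB : ((2 * h * E + s * (k + 1) : ℕ) : ℝ) ≤ 16 * (s * Λ) := by
      have h1 : (k : ℝ) = (Nat.log 2 E : ℕ) + 1 := by rw [hk]; push_cast; ring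
      have h2 : (k : ℝ) + 1 ≤ 4 * Λ := by rw [h1]; linarith
      have h3 : (s : ℝ) * (k + 1) ≤ s * (4 * Λ) := mul_le_mul_of_nonneg_left h2 (by linarith)
      have h4 : (s : ℝ) * 1 ≤ s * Λ := mul_le_mul_of_nonneg_left hΛ hs0.le
      have h5 : 2 * (h : ℝ) * E ≤ 12 * s := by linarith
      push_cast
      linarith
    have hAB : (((X / E + Y + 2) * (2 * h * E + s * (k + 1)) : ℕ) : ℝ) ≤
        432 * (Q * Λ) * (s * Λ) := by
      rw [Nat.cast_mul]
      calc ((X / E + Y + 2 : ℕ) : ℝ) * ((2 * h * E + s * (k + 1) : ℕ) : ℝ)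
          ≤ (27 * (Q * Λ)) * (16 * (s * Λ)) :=
            mul_le_mul hA hB (Nat.cast_nonneg _) (by positivity)
        _ = 432 * (Q * Λ) * (s * Λ) := by ring
    have hfin := pow_le_pow_left₀ (Nat.cast_nonneg _) hAB 2
    refine hfin.trans (le_of_eq ?_)
    have e1 : (432 * (Q * Λ) * (s * Λ)) ^ 2 = 186624 * (Q * Q) * (s : ℝ) ^ 2 * Λ ^ 4 := by ring
    rw [e1, hQ2]
    push_cast
    ring

theorem sNum : Pool.Agent.T9h7.RD.SNum := sNum'

end Pool.Agent.T9h69.RD
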